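import Pool.Agent.Lib.MP_a40b8c_co.Process

/-!
For every fixed `p ∈ (0, 1)` there is `c > 0` such that a `p`-random subset of `[n]` has at least
`c n ^ 2` distinct consecutive sums with probability tending to `1`.
-/

namespace Pool.Agent.Results.MP_a40b8c_co.RandomSubset

open Finset Filter Pool.Agent.MP_a40b8c_co

/-- The set of consecutive sums `a i + ⋯ + a j`, `i ≤ j`, of a finite sequence. -/
def consecutiveSums {k : ℕ} (a : Fin k → ℕ) : Finset ℕ :=
  (Finset.univ.filter fun q : Fin k × Fin k => q.1 ≤ q.2).image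
    fun q => ∑ u ∈ Finset.Icc q.1 q.2, a u

/-- The increasing enumeration `a_1 < ⋯ < a_k` of a finite set `A` of naturals. -/
def enum (A : Finset ℕ) : Fin A.card → ℕ := A.orderEmbOfFin rfl

open Classical in
/-- The probability that the `p`-random subset of `[n] = {1, …, n}` has the property `E`. -/
noncomputable def prob (p : ℝ) (n : ℕ) (E : Finset ℕ → Prop) : ℝ :=
  ∑ A ∈ (Finset.Icc 1 n).powerset with E A, p ^ A.card * (1 - p) ^ (n - A.card)

/-- A positive window sum of `A` is a consecutive sum of its enumeration. -/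
lemma window_mem {A : Finset ℕ} {a b : ℕ} (hne : (A ∩ Ioc a b).Nonempty) :
    ∑ m ∈ A ∩ Ioc a b, m ∈ consecutiveSums (enum A) := by
  set W := A ∩ Ioc a b with hW
  have hmin := W.min'_mem hne
  have hmax := W.max'_mem hne
  have hminA : W.min' hne ∈ A := (Finset.mem_inter.1 hmin).1
  have hmaxA : W.max' hne ∈ A := (Finset.mem_inter.1 hmax).1
  have hrange : Set.range (A.orderEmbOfFin rfl) = (A : Set ℕ) := A.range_orderEmbOfFin rfl
  obtain ⟨i, hi⟩ : W.min' hne ∈ Set.range (A.orderEmbOfFin rfl) := by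
    rw [hrange]
    exact hminA
  obtain ⟨j, hj⟩ : W.max' hne ∈ Set.range (A.orderEmbOfFin rfl) := by
    rw [hrange]
    exact hmaxA
  have hij : i ≤ j := by
    rw [← (A.orderEmbOfFin rfl).le_iff_le, hi, hj]
    exact W.min'_le_max' hne
  unfold consecutiveSums
  rw [Finset.mem_image]
  refine ⟨(i, j), by simpa using hij, ?_⟩
  simp only
  symm
  apply Finset.sum_nbij' (i := fun m => if h : m ∈ A then (A.orderIsoOfFin rfl).symm ⟨m, h⟩ else i)
    (j := fun u => enum A u)
  · intro m hm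
    have hmA : m ∈ A := (Finset.mem_inter.1 hm).1
    rw [dif_pos hmA, Finset.mem_Icc]
    have e1 : A.orderEmbOfFin rfl ((A.orderIsoOfFin rfl).symm ⟨m, hmA⟩) = m := by
      rw [← Finset.coe_orderIsoOfFin_apply]
      simp
    constructor
    · rw [← (A.orderEmbOfFin rfl).le_iff_le, hi, e1]
      exact W.min'_le m hm
    · rw [← (A.orderEmbOfFin rfl).le_iff_le, hj, e1]
      exact W.le_max' m hm
  · intro u hu
    rw [Finset.mem_Icc] at hu
    have h1 : W.min' hne ≤ A.orderEmbOfFin rfl u := by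
      rw [← hi]
      exact (A.orderEmbOfFin rfl).le_iff_le.2 hu.1
    have h2 : A.orderEmbOfFin rfl u ≤ W.max' hne := by
      rw [← hj]
      exact (A.orderEmbOfFin rfl).le_iff_le.2 hu.2
    have h3 := (Finset.mem_Ioc.1 (Finset.mem_inter.1 hmin).2).1
    have h4 := (Finset.mem_Ioc.1 (Finset.mem_inter.1 hmax).2).2
    rw [hW, Finset.mem_inter, Finset.mem_Ioc]
    refine ⟨A.orderEmbOfFin_mem rfl u, ?_, ?_⟩
    · exact lt_of_lt_of_le h3 h1
    · exact h2.trans h4
  · intro m hm
    have hmA : m ∈ A := (Finset.mem_inter.1 hm).1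
    rw [dif_pos hmA]
    unfold enum
    rw [← Finset.coe_orderIsoOfFin_apply]
    simp
  · intro u hu
    have hmem : enum A u ∈ A := A.orderEmbOfFin_mem rfl u
    rw [dif_pos hmem, OrderIso.symm_apply_eq]
    ext
    rw [Finset.coe_orderIsoOfFin_apply]
    rfl
  · intro m hm
    have hmA : m ∈ A := (Finset.mem_inter.1 hm).1
    rw [dif_pos hmA]
    unfold enum
    rw [← Finset.coe_orderIsoOfFin_apply]
    simp

/-- The explored differences are, up to the value `0`, consecutive sums. -/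
lemma UU_card_le (n m : ℕ) (A : Finset ℕ) :
    (UU n m A).card ≤ (consecutiveSums (enum A)).card + 1 := by
  have h1 : UU n m A ⊆ insert 0 ((consecutiveSums (enum A)).image fun s : ℕ => (s : ℤ)) := by
    intro v hv
    unfold UU XX at hv
    rw [Finset.mem_image] at hv
    obtain ⟨q, hq, rfl⟩ := hv
    rw [Finset.mem_product, Finset.mem_Ioc, Finset.mem_image] at hq
    obtain ⟨⟨hq1, _⟩, k, hk, hk2⟩ := hq
    rw [Finset.mem_Ioc] at hk
    have hkq : k ≤ q.1 := by omega
    rw [← hk2, pre_sub hkq]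
    rcases Finset.eq_empty_or_nonempty (A ∩ Ioc k q.1) with he | hne
    · rw [he, Finset.sum_empty]
      exact Finset.mem_insert_self _ _
    · apply Finset.mem_insert_of_mem
      rw [Finset.mem_image]
      refine ⟨_, window_mem hne, ?_⟩
      push_cast
      rfl
  calc (UU n m A).card ≤ (insert 0 ((consecutiveSums (enum A)).image fun s : ℕ => (s : ℤ))).card :=
        Finset.card_le_card h1
    _ ≤ ((consecutiveSums (enum A)).image fun s : ℕ => (s : ℤ)).card + 1 :=
        Finset.card_insert_le _ _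
    _ ≤ (consecutiveSums (enum A)).card + 1 := by
        have := Finset.card_image_le (s := consecutiveSums (enum A)) (f := fun s : ℕ => (s : ℤ))
        omega

open Classical in
lemma prob_eq_Ex (p : ℝ) (n : ℕ) (E : Finset ℕ → Prop) :
    prob p n E = Ex p (Icc 1 n) (fun A => if E A then 1 else 0) := by
  unfold prob Ex
  rw [Finset.sum_filter]
  apply Finset.sum_congr rfl
  intro A _
  rw [Nat.card_Icc, Nat.add_sub_cancel]
  by_cases hE : E A <;> simp [hE]

/-- The left part is nice with high probability. -/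
lemma not_nice_bound {p : ℝ} (hp0 : 0 < p) (hp1 : p < 1) (n : ℕ) {I : Finset ℕ}
    (hI : Ioc (n / 4) (n / 2) ⊆ I) :
    Ex p I (fun A => Real.exp (p / 16 * n) * Real.exp (-1) ^ (A ∩ Ioc (n / 4) (n / 2)).card) ≤
      Real.exp (p - p / 16 * n) := by
  rw [Ex_mul_left]
  have h1 : Ex p I (fun A => Real.exp (-1) ^ (A ∩ Ioc (n / 4) (n / 2)).card) =
      (1 - p + p * Real.exp (-1)) ^ (Ioc (n / 4) (n / 2)).card := by
    rw [Ex_marginal hI (fun A => Real.exp (-1) ^ A.card), Ex_pow_card]
  rw [h1, Nat.card_Ioc]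
  have h2 : Real.exp (-1) ≤ 1 / 2 := by
    have := exp_neg_le_half (y := 1) (by norm_num) le_rfl
    linarith
  have h3 : 1 - p + p * Real.exp (-1) ≤ Real.exp (-(p / 2)) := by
    have h4 := Real.add_one_le_exp (-(p / 2))
    have h5 : p * Real.exp (-1) ≤ p * (1 / 2) := mul_le_mul_of_nonneg_left h2 hp0.le
    linarith
  have h0 : 0 ≤ 1 - p + p * Real.exp (-1) := by
    have := Real.exp_pos (-1)
    have h5 : 0 ≤ p * Real.exp (-1) := by positivity
    linarith
  calc Real.exp (p / 16 * n) * (1 - p + p * Real.exp (-1)) ^ (n / 2 - n / 4)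
      ≤ Real.exp (p / 16 * n) * Real.exp (-(p / 2)) ^ (n / 2 - n / 4) := by
        apply mul_le_mul_of_nonneg_left _ (Real.exp_pos _).le
        exact pow_le_pow_left₀ h0 h3 _
    _ = Real.exp (p / 16 * n + (n / 2 - n / 4 : ℕ) * (-(p / 2))) := by
        rw [← Real.exp_nat_mul, ← Real.exp_add]
    _ ≤ Real.exp (p - p / 16 * n) := by
        apply Real.exp_le_exp.2
        have h6 : n ≤ 4 * (n / 2 - n / 4) + 4 := by omega
        have h7 : (n : ℝ) ≤ 4 * ((n / 2 - n / 4 : ℕ) : ℝ) + 4 := by exact_mod_cast h6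
        nlinarith

/-- The failure probability. -/
lemma failure_bound {p : ℝ} (hp0 : 0 < p) (hp1 : p < 1) : ∃ c κ : ℝ, 0 < c ∧ 0 < κ ∧
    ∀ T : ℕ, 0 < T → ∃ n₀ : ℕ, ∀ n ≥ n₀,
      1 - (Real.exp (p - p / 16 * n) + Real.exp (-(κ * T))) ≤
        prob p n (fun A => c * (n : ℝ) ^ 2 ≤ ((consecutiveSums (enum A)).card : ℝ)) := by
  classical
  obtain ⟨C, hC1, hC⟩ := hit_bound hp0 hp1
  have hC0 : 0 < C := by linarith
  have hH : Hits p C := hC
  set c0 : ℝ := p / 16 with hc0
  have hc00 : 0 < c0 := by positivity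
  set K := kap C c0 with hK
  have hK0 : 0 < K := kap_pos hC0.le hc00
  have hK2 : K ≤ 2 := by
    rw [hK]
    unfold kap
    have h1 := om_tsum_nonneg
    rw [div_le_iff₀ (by positivity)]
    have h2 : c0 ^ 2 ≤ 1 := by
      rw [hc0]
      nlinarith
    have h3 : 0 ≤ C * (2 * (∑' i, om i) + 4) := by positivity
    nlinarith
  set cU : ℝ := c0 / (10 * C) with hcU
  have hcU0 : 0 < cU := by positivity
  set c1 : ℝ := min cU (K / 16) with hc1
  have hc10 : 0 < c1 := lt_min hcU0 (by positivity)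
  refine ⟨c1 / 2, K / 4, by positivity, by positivity, ?_⟩
  intro T hT
  have hT0 : (0 : ℝ) < T := by exact_mod_cast hT
  -- `om` is eventually small along halves of blocks
  have hlarge : ∃ n₀ : ℕ, 0 < n₀ ∧ ∀ n ≥ n₀, 4 * T ≤ n ∧ 1 ≤ c1 / 2 * (n : ℝ) ^ 2 ∧
      ∀ j ∈ half (n / (2 * T)), om j ≤ 1 / (n : ℝ) := by
    obtain ⟨N1, hN1⟩ := exists_nat_gt (2 / c1)
    refine ⟨N1 + 4 * T + (8 * T) ^ 3 + 1, by omega, ?_⟩
    intro n hn
    have hn1 : N1 ≤ n := by omega
    have hn2 : 4 * T ≤ n := by omega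
    have hn3 : (8 * T) ^ 3 ≤ n := by omega
    have hn0 : 1 ≤ n := by omega
    have hn0r : (1 : ℝ) ≤ n := by exact_mod_cast hn0
    refine ⟨hn2, ?_, ?_⟩
    · have h1 : 2 / c1 < (n : ℝ) := lt_of_lt_of_le hN1 (by exact_mod_cast hn1)
      rw [div_lt_iff₀ hc10] at h1
      nlinarith
    · intro j hj
      unfold half at hj
      rw [Finset.mem_Ioc] at hj
      -- `j ≥ n / (8 T)`
      have h1 : n ≤ 8 * T * j := by
        have h2 : n < 2 * T * (n / (2 * T) + 1) := by
          exact Nat.lt_mul_div_succ n (by omega)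
        have h3 : n / (2 * T) + 1 ≤ 2 * j + 1 := by omega
        have h4 : 1 ≤ j := by omega
        have h5 : 2 * T * (n / (2 * T) + 1) ≤ 2 * T * (4 * j) := by
          apply Nat.mul_le_mul_left
          omega
        have h6 : 2 * T * (4 * j) = 8 * T * j := by ring
        omega
      -- hence `j ^ 3 ≥ n ^ 2`
      have h2 : n ^ 2 ≤ j ^ 3 := by
        have h3 : n ^ 3 ≤ (8 * T * j) ^ 3 := Nat.pow_le_pow_left h1 3
        have h4 : n ^ 3 ≤ (8 * T) ^ 3 * j ^ 3 := by
          rw [mul_pow] at h3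
          exact h3
        have h5 : (8 * T) ^ 3 * n ^ 2 ≤ (8 * T) ^ 3 * j ^ 3 := by
          calc (8 * T) ^ 3 * n ^ 2 ≤ n * n ^ 2 := Nat.mul_le_mul_right _ hn3
            _ = n ^ 3 := by ring
            _ ≤ (8 * T) ^ 3 * j ^ 3 := h4
        exact Nat.le_of_mul_le_mul_left h5 (by positivity)
      have h3 : (n : ℝ) ^ 2 ≤ (j : ℝ) ^ 3 := by exact_mod_cast h2
      have hj0 : (0 : ℝ) < j := by
        have : 0 < j := by
          by_contra h0
          have : j = 0 := by omega
          rw [this] at h1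
          omega
        exact_mod_cast this
      unfold om
      rw [Real.rpow_neg hj0.le, ← one_div]
      apply one_div_le_one_div_of_le (by linarith)
      have h4 : (j : ℝ) ^ (3 / 2 : ℝ) = ((j : ℝ) ^ 3) ^ (1 / 2 : ℝ) := by
        rw [← Real.rpow_natCast (j : ℝ) 3, ← Real.rpow_mul hj0.le]
        norm_num
      have h5 : (n : ℝ) = ((n : ℝ) ^ 2) ^ (1 / 2 : ℝ) := by
        rw [← Real.rpow_natCast (n : ℝ) 2, ← Real.rpow_mul (by linarith)]
        norm_num
      rw [h4, h5]
      exact Real.rpow_le_rpow (by positivity) h3 (by norm_num)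
  obtain ⟨n₀, hn₀0, hn₀⟩ := hlarge
  refine ⟨n₀, ?_⟩
  intro n hn
  obtain ⟨h4T, hc1n, hom⟩ := hn₀ n hn
  have hnpos : 0 < n := by omega
  have hn0r : (0 : ℝ) < n := by exact_mod_cast hnpos
  set b := n / (2 * T) with hb
  have hb0 : 0 < b := Nat.div_pos (by omega) (by omega)
  have hb0r : (0 : ℝ) < b := by exact_mod_cast hb0
  have hbn : b ≤ n := Nat.div_le_self _ _
  set m := n / 2 + T * b with hm
  have hmn : m ≤ n := by
    have h1 : 2 * T * b ≤ n := Nat.mul_div_le n (2 * T)
    have h2 : 2 * (T * b) ≤ n := by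
      calc 2 * (T * b) = 2 * T * b := by ring
        _ ≤ n := h1
    omega
  have hnb : (n : ℝ) ≤ 4 * T * b := by
    have h1 : n < 2 * T * (b + 1) := Nat.lt_mul_div_succ n (by omega)
    have h2 : 2 * T * (b + 1) ≤ 2 * T * (2 * b) := Nat.mul_le_mul_left _ (by omega)
    have h3 : n ≤ 4 * T * b := by
      calc n ≤ 2 * T * (2 * b) := by omega
        _ = 4 * T * b := by ring
    exact_mod_cast h3
  -- the moment bound
  have hmom := FF_iterate hp0.le hp1.le hC0 hH hc00 hK2 hnpos hb0 hbn hom T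
  rw [← hm, ← hK] at hmom
  have hsub : Icc 1 m ⊆ Icc 1 n := Finset.Icc_subset_Icc_right hmn
  -- `FF` depends only on `A ∩ [1, m]`
  have hpre : ∀ (A : Finset ℕ) (k : ℕ), A ⊆ Icc 1 n → k ≤ m → pre (A ∩ Icc 1 m) k = pre A k := by
    intro A k hA hk
    unfold pre
    congr 1
    ext x
    simp only [Finset.mem_filter, Finset.mem_inter, Finset.mem_Icc]
    constructor
    · rintro ⟨⟨h1, _⟩, h2⟩
      exact ⟨h1, h2⟩
    · rintro ⟨h1, h2⟩
      have := Finset.mem_Icc.1 (hA h1)
      exact ⟨⟨h1, this.1, by omega⟩, h2⟩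
  have hXX : ∀ A : Finset ℕ, A ⊆ Icc 1 n → XX n (A ∩ Icc 1 m) = XX n A := by
    intro A hA
    unfold XX
    apply Finset.image_congr
    intro k hk
    rw [Finset.mem_coe, Finset.mem_Ioc] at hk
    exact hpre A k hA (by omega)
  have hUU : ∀ A : Finset ℕ, A ⊆ Icc 1 n → UU n m (A ∩ Icc 1 m) = UU n m A := by
    intro A hA
    unfold UU
    rw [hXX A hA]
    apply Finset.image_congr
    intro q hq
    rw [Finset.mem_coe, Finset.mem_product, Finset.mem_Ioc] at hq
    simp only
    rw [hpre A q.1 hA hq.1.2]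
  have hNice : ∀ A : Finset ℕ, (A ∩ Icc 1 m) ∩ Ioc (n / 4) (n / 2) = A ∩ Ioc (n / 4) (n / 2) := by
    intro A
    ext x
    simp only [Finset.mem_inter, Finset.mem_Icc, Finset.mem_Ioc]
    constructor
    · rintro ⟨⟨h1, _⟩, h2⟩
      exact ⟨h1, h2⟩
    · rintro ⟨h1, h2⟩
      exact ⟨⟨h1, by omega, by omega⟩, h2⟩
  have hFF : Ex p (Icc 1 n) (FF C c0 n b m) = Ex p (Icc 1 m) (FF C c0 n b m) := by
    rw [← Ex_marginal hsub (FF C c0 n b m)]
    apply Ex_congr
    intro A hA
    unfold FF Nice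
    rw [hUU A hA, hNice A]
  -- pointwise bound for the failure indicator
  have hpoint : ∀ A ⊆ Icc 1 n,
      (1 : ℝ) - (Real.exp (p / 16 * n) * Real.exp (-1) ^ (A ∩ Ioc (n / 4) (n / 2)).card +
        Real.exp (c1 * n ^ 2 / (n * b)) * FF C c0 n b m A) ≤
      if c1 / 2 * (n : ℝ) ^ 2 ≤ ((consecutiveSums (enum A)).card : ℝ) then 1 else 0 := by
    intro A _
    have hnn1 : 0 ≤ Real.exp (p / 16 * n) * Real.exp (-1) ^ (A ∩ Ioc (n / 4) (n / 2)).card := by
      positivity
    have hnn2 : 0 ≤ Real.exp (c1 * n ^ 2 / (n * b)) * FF C c0 n b m A :=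
      mul_nonneg (Real.exp_pos _).le (FF_nonneg _ _ _ _ _ _)
    split_ifs with hgood
    · linarith
    · push Not at hgood
      by_cases hnice : Nice c0 n A
      · have h1 : ((UU n m A).card : ℝ) ≤ c1 * n ^ 2 := by
          have h2 : ((UU n m A).card : ℝ) ≤ ((consecutiveSums (enum A)).card : ℝ) + 1 := by
            exact_mod_cast UU_card_le n m A
          linarith
        have h2 : ((UU n m A).card : ℝ) ≤ c0 / (10 * C) * (n : ℝ) ^ 2 := by
          refine h1.trans ?_
          apply mul_le_mul_of_nonneg_right _ (by positivity)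
          exact min_le_left _ _
        have h3 : FF C c0 n b m A = Real.exp (-(((UU n m A).card : ℝ) / (n * b))) := by
          unfold FF
          rw [if_pos ⟨hnice, h2⟩]
        have h4 : 1 ≤ Real.exp (c1 * n ^ 2 / (n * b)) * FF C c0 n b m A := by
          rw [h3, ← Real.exp_add, Real.one_le_exp_iff]
          have h5 := div_le_div_of_nonneg_right h1 (show (0 : ℝ) ≤ n * b by positivity)
          linarith
        linarith
      · unfold Nice at hnice
        push Not at hnice
        have h1 : 1 ≤ Real.exp (p / 16 * n) * Real.exp (-1) ^ (A ∩ Ioc (n / 4) (n / 2)).card := by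
          rw [← Real.exp_nat_mul, ← Real.exp_add, Real.one_le_exp_iff]
          rw [hc0] at hnice
          linarith
        linarith
  rw [prob_eq_Ex]
  refine le_trans ?_ (Ex_mono hp0.le hp1.le hpoint)
  rw [Ex_sub, Ex_const, Ex_add, Ex_mul_left (F := FF C c0 n b m), hFF]
  have hleft : Ex p (Icc 1 n) (fun A => Real.exp (p / 16 * n) *
      Real.exp (-1) ^ (A ∩ Ioc (n / 4) (n / 2)).card) ≤ Real.exp (p - p / 16 * n) := by
    apply not_nice_bound hp0 hp1
    intro x hx
    rw [Finset.mem_Ioc] at hx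
    rw [Finset.mem_Icc]
    omega
  have hright : Real.exp (c1 * n ^ 2 / (n * b)) * Ex p (Icc 1 m) (FF C c0 n b m) ≤
      Real.exp (-(K / 4 * T)) := by
    have h1 : c1 * n ^ 2 / (n * b) ≤ T * (K / 4) := by
      rw [div_le_iff₀ (by positivity)]
      have h2 : c1 ≤ K / 16 := min_le_right _ _
      calc c1 * (n : ℝ) ^ 2 ≤ K / 16 * (n : ℝ) ^ 2 := by
            apply mul_le_mul_of_nonneg_right h2 (by positivity)
        _ = K / 16 * n * n := by ring
        _ ≤ K / 16 * n * (4 * T * b) := by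
            apply mul_le_mul_of_nonneg_left hnb (by positivity)
        _ = T * (K / 4) * (n * b) := by ring
    have h3 : 1 - K / 2 ≤ Real.exp (-(K / 2)) := by
      have := Real.add_one_le_exp (-(K / 2))
      linarith
    have h4 : (1 - K / 2) ^ T ≤ Real.exp (-(K / 2)) ^ T :=
      pow_le_pow_left₀ (by linarith) h3 T
    calc Real.exp (c1 * n ^ 2 / (n * b)) * Ex p (Icc 1 m) (FF C c0 n b m)
        ≤ Real.exp (T * (K / 4)) * Real.exp (-(K / 2)) ^ T := by
          apply mul_le_mul (Real.exp_le_exp.2 h1) (hmom.trans h4) _ (Real.exp_pos _).le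
          exact Ex_nonneg hp0.le hp1.le (fun A _ => FF_nonneg _ _ _ _ _ _)
      _ = Real.exp (-(K / 4 * T)) := by
          rw [← Real.exp_nat_mul, ← Real.exp_add]
          congr 1
          ring
  linarith

lemma prob_le_one {p : ℝ} (hp0 : 0 < p) (hp1 : p < 1) (n : ℕ) (E : Finset ℕ → Prop) :
    prob p n E ≤ 1 := by
  classical
  rw [prob_eq_Ex]
  calc Ex p (Icc 1 n) (fun A => if E A then 1 else 0) ≤ Ex p (Icc 1 n) (fun _ => 1) := by
        apply Ex_mono hp0.le hp1.le
        intro A _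
        split_ifs <;> norm_num
    _ = 1 := Ex_const _ _

/-- For every fixed `p ∈ (0, 1)` there is a constant `c > 0` such that the increasing enumeration
of a `p`-random subset of `[n]` has at least `c n ^ 2` distinct consecutive sums with probability
tending to `1` as `n → ∞`. -/
theorem result : ∀ p : ℝ, 0 < p → p < 1 → ∃ c : ℝ, 0 < c ∧
    Tendsto (fun n : ℕ => prob p n fun A => c * (n : ℝ) ^ 2 ≤ ((consecutiveSums (enum A)).card : ℝ))
      atTop (nhds 1) := by
  intro p hp0 hp1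
  obtain ⟨c, κ, hc, hκ, h⟩ := failure_bound hp0 hp1
  refine ⟨c, hc, ?_⟩
  rw [Metric.tendsto_atTop]
  intro ε hε
  -- choose `T`
  have h1 : Tendsto (fun T : ℕ => Real.exp (-(κ * T))) atTop (nhds 0) := by
    apply Real.tendsto_exp_neg_atTop_nhds_zero.comp
    exact tendsto_natCast_atTop_atTop.const_mul_atTop hκ
  have h2 : Tendsto (fun n : ℕ => Real.exp (p - p / 16 * n)) atTop (nhds 0) := by
    have h3 : Tendsto (fun n : ℕ => Real.exp p * Real.exp (-(p / 16 * n))) atTop
        (nhds (Real.exp p * 0)) := by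
      apply Tendsto.const_mul
      apply Real.tendsto_exp_neg_atTop_nhds_zero.comp
      exact tendsto_natCast_atTop_atTop.const_mul_atTop (by positivity)
    rw [mul_zero] at h3
    refine h3.congr ?_
    intro n
    rw [← Real.exp_add, ← sub_eq_add_neg]
  obtain ⟨T, hT0, hT⟩ : ∃ T : ℕ, 0 < T ∧ Real.exp (-(κ * T)) < ε / 2 := by
    have h3 := (h1.eventually (gt_mem_nhds (show (0 : ℝ) < ε / 2 by positivity))).and
      (eventually_gt_atTop 0)
    obtain ⟨T, hT⟩ := h3.exists
    exact ⟨T, hT.2, hT.1⟩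
  obtain ⟨n₀, hn₀⟩ := h T hT0
  obtain ⟨n₁, hn₁⟩ := (eventually_atTop.1
    (h2.eventually (gt_mem_nhds (show (0 : ℝ) < ε / 2 by positivity))))
  refine ⟨max n₀ n₁, ?_⟩
  intro n hn
  have h4 := hn₀ n (le_trans (le_max_left _ _) hn)
  have h5 := hn₁ n (le_trans (le_max_right _ _) hn)
  have h6 := prob_le_one hp0 hp1 n
    (fun A => c * (n : ℝ) ^ 2 ≤ ((consecutiveSums (enum A)).card : ℝ))
  rw [Real.dist_eq, abs_lt]
  constructor <;> linarith

end Pool.Agent.Results.MP_a40b8c_co.RandomSubset
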